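import Pool.Agent.Helper58.DH.Goals

/-!
# Project DH, packet F_POS: the positivity condition for the integral parameters.
-/

set_option autoImplicit false

namespace Pool.Agent.Helper59.DH

open Pool.Agent.Helper58.DH

/-- the inequality for `τ = 1` -/
theorem ineq_one {p q r : ℕ} (hp : 1 ≤ p) (hq : 1 ≤ q) (hr : 1 ≤ r)
    (h : ((max p q : ℤ) - 1) * r * ((min p q : ℤ) - r ^ 2) ≤ ((min p q : ℤ) + r) ^ 4) :
    ((p : ℝ) - 1) * r * ((q : ℝ) - (r : ℝ) ^ 2) ≤ ((q : ℝ) + r) ^ 4 := by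
  have hp' : (1 : ℝ) ≤ p := by exact_mod_cast hp
  have hq' : (1 : ℝ) ≤ q := by exact_mod_cast hq
  have hr' : (1 : ℝ) ≤ r := by exact_mod_cast hr
  rcases le_or_gt q p with hqp | hpq
  · have hqp' : (q : ℤ) ≤ p := by exact_mod_cast hqp
    rw [max_eq_left hqp', min_eq_right hqp'] at h
    exact_mod_cast h
  · have hpq' : (p : ℝ) ≤ q := by exact_mod_cast hpq.le
    have h0 : (0 : ℝ) ≤ ((p : ℝ) - 1) * r := mul_nonneg (by linarith) (by linarith)
    calc ((p : ℝ) - 1) * r * ((q : ℝ) - (r : ℝ) ^ 2) ≤ ((p : ℝ) - 1) * r * q :=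
          mul_le_mul_of_nonneg_left (by nlinarith) h0
      _ ≤ (q * (r : ℝ)) * q := by
          refine mul_le_mul_of_nonneg_right ?_ (by linarith)
          exact mul_le_mul_of_nonneg_right (by linarith) (by linarith)
      _ ≤ ((q : ℝ) + r) ^ 2 * ((q : ℝ) + r) ^ 2 := by
          refine mul_le_mul (by nlinarith) (by nlinarith) (by linarith) (by positivity)
      _ = ((q : ℝ) + r) ^ 4 := by ring

theorem ineq_tau {p q r : ℕ} (hp : 1 ≤ p) (hq : 1 ≤ q) (hr : 1 ≤ r)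
    (h : ((max p q : ℤ) - 1) * r * ((min p q : ℤ) - r ^ 2) ≤ ((min p q : ℤ) + r) ^ 4)
    {τ : ℝ} (h0 : 0 ≤ τ) (h1 : τ ≤ 1) :
    ((p : ℝ) - τ) * r * ((q : ℝ) * τ - (r : ℝ) ^ 2) ≤ ((q : ℝ) + r) ^ 4 := by
  have hp' : (1 : ℝ) ≤ p := by exact_mod_cast hp
  have hq' : (1 : ℝ) ≤ q := by exact_mod_cast hq
  have hr' : (1 : ℝ) ≤ r := by exact_mod_cast hr
  have hpos : (0 : ℝ) ≤ ((q : ℝ) + r) ^ 4 := by positivity
  rcases le_or_gt ((q : ℝ) * τ) ((r : ℝ) ^ 2) with hc | hc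
  · refine le_trans ?_ hpos
    exact mul_nonpos_of_nonneg_of_nonpos (mul_nonneg (by linarith) (by linarith)) (by linarith)
  · rcases Nat.lt_or_ge p 2 with hp2 | hp2
    · have hp1 : (p : ℝ) = 1 := by
        have : p = 1 := by omega
        rw [this]
        norm_num
      have hle : (q : ℝ) * τ - (r : ℝ) ^ 2 ≤ q := by nlinarith
      have hle2 : ((p : ℝ) - τ) * r ≤ r := by
        rw [hp1]
        nlinarith
      calc ((p : ℝ) - τ) * r * ((q : ℝ) * τ - (r : ℝ) ^ 2) ≤ r * q :=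
            mul_le_mul hle2 hle (by linarith) (by linarith)
        _ = r * q * 1 := (mul_one _).symm
        _ ≤ ((q : ℝ) + r) ^ 2 * ((q : ℝ) + r) ^ 2 := by
            refine mul_le_mul (by nlinarith) (by nlinarith) zero_le_one (by positivity)
        _ = ((q : ℝ) + r) ^ 4 := by ring
    · have hp2' : (2 : ℝ) ≤ p := by exact_mod_cast hp2
      have key : ((p : ℝ) - τ) * ((q : ℝ) * τ - (r : ℝ) ^ 2) ≤ ((p : ℝ) - 1) * ((q : ℝ) - (r : ℝ) ^ 2) := by
        have e : ((p : ℝ) - 1) * ((q : ℝ) - (r : ℝ) ^ 2) - ((p : ℝ) - τ) * ((q : ℝ) * τ - (r : ℝ) ^ 2) =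
            (1 - τ) * ((q : ℝ) * (p - 2) + (1 - τ) * q + (r : ℝ) ^ 2) := by ring
        have e2 : 0 ≤ (1 - τ) * ((q : ℝ) * (p - 2) + (1 - τ) * q + (r : ℝ) ^ 2) := by
          refine mul_nonneg (by linarith) ?_
          have := mul_nonneg (by linarith : (0 : ℝ) ≤ q) (by linarith : (0 : ℝ) ≤ p - 2)
          have := mul_nonneg (by linarith : (0 : ℝ) ≤ 1 - τ) (by linarith : (0 : ℝ) ≤ q)
          positivity
        linarith
      calc ((p : ℝ) - τ) * r * ((q : ℝ) * τ - (r : ℝ) ^ 2) =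
            ((p : ℝ) - τ) * ((q : ℝ) * τ - (r : ℝ) ^ 2) * r := by ring
        _ ≤ ((p : ℝ) - 1) * ((q : ℝ) - (r : ℝ) ^ 2) * r :=
            mul_le_mul_of_nonneg_right key (by linarith)
        _ = ((p : ℝ) - 1) * r * ((q : ℝ) - (r : ℝ) ^ 2) := by ring
        _ ≤ _ := ineq_one hp hq hr h

/-- **Packet F_POS.** -/
theorem f_pos (hC : C_POS) : F_POS := by
  obtain ⟨hC1, hC2⟩ := hC
  refine ⟨?_, ?_⟩
  · intro p q m hp hq hm k τ hτ
    have hp' : (2 : ℝ) ≤ p := by exact_mod_cast hp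
    have hq' : (2 : ℝ) ≤ q := by exact_mod_cast hq
    have hm' : (1 : ℝ) ≤ m := by exact_mod_cast hm
    have hk : 0 < k := by
      show (0 : ℝ) < 2 * p + 2 * q + m + 2 * (-1)
      linarith
    have e : ∀ x : ℝ, x / k + τ * (-1 / k) = (x - τ) / k := fun x => by ring
    refine hC1 (p / k) (q / k) (m / k) (τ * (-1 / k)) ?_ ?_ (by positivity) ?_
    · rw [e]
      exact div_pos (by linarith [hτ.2]) hk
    · rw [e]
      exact div_pos (by linarith [hτ.2]) hk
    · have h1 : (-1 : ℝ) / k ≤ 0 := div_nonpos_of_nonpos_of_nonneg (by norm_num) hk.le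
      exact mul_nonpos_of_nonneg_of_nonpos hτ.1 h1
  · intro p q r hp hq hr h k τ hτ
    have hp' : (1 : ℝ) ≤ p := by exact_mod_cast hp
    have hq' : (1 : ℝ) ≤ q := by exact_mod_cast hq
    have hr' : (1 : ℝ) ≤ r := by exact_mod_cast hr
    have hk : 0 < k := by
      show (0 : ℝ) < 2 * p + 2 * q + (2 * r : ℕ) + 2 * 1
      push_cast
      linarith
    have hM : ((2 * r : ℕ) : ℝ) = 2 * r := by push_cast; ring
    have e : τ * (1 / k) = τ / k := by ring
    refine hC2 (p / k) (q / k) ((2 * r : ℕ) / k) (τ * (1 / k)) (by positivity) (by positivity) ?_ ?_ ?_ ?_ ?_ ?_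
    · rw [hM]
      positivity
    · exact mul_nonneg hτ.1 (by positivity)
    · rw [e]
      exact div_le_div_of_nonneg_right (by linarith [hτ.2]) hk.le
    · rw [e]
      exact div_le_div_of_nonneg_right (by linarith [hτ.2]) hk.le
    · rw [e, hM, ← mul_div_assoc]
      exact div_le_div_of_nonneg_right (by linarith [hτ.2]) hk.le
    · rw [e, hM]
      have e1 : ((p : ℝ) / k - τ / k) * (2 * r / k) * (4 * (q / k) * (τ / k) - (2 * r / k) ^ 2) =
          8 * (((p : ℝ) - τ) * r * ((q : ℝ) * τ - (r : ℝ) ^ 2)) / k ^ 4 := by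
        field_simp
        ring
      have e2 : 8 * ((q : ℝ) / k + 2 * r / k / 2) ^ 4 = 8 * ((q : ℝ) + r) ^ 4 / k ^ 4 := by
        field_simp
        try ring
      rw [e1, e2]
      refine div_le_div_of_nonneg_right ?_ (by positivity)
      have := ineq_tau hp hq hr h hτ.1 hτ.2
      linarith

end Pool.Agent.Helper59.DH
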